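import Pool.Agent.helper95.PY2.Spec

set_option autoImplicit false

open Finset

namespace Pool.Agent.PY2

/-- One part. -/
theorem INT_part (p : ℕ) [Fact p.Prime] (ε d dX : ℝ) (hd1 : d ≤ ε / 2) (hd2 : d ≤ dX) (N : ℕ)
    (B P : Finset (ZMod p)) (hPB : P ⊆ B) (hNB : (p : ℝ) ^ (1 / 2 + ε) ≤ N * B.card)
    (χ : MulChar (ZMod p) ℂ) (β : ZMod p → ℂ) (hβ : ∀ b, ‖β b‖ ≤ 1)
    (h : (p : ℝ) ^ (1 / 2 + ε / 2) ≤ N * P.card →
      ∑ n ∈ range N, ‖∑ b ∈ P, β b * χ ((n : ZMod p) + b)‖ ≤ (p : ℝ) ^ (-dX) * N * P.card) :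
    ∑ n ∈ range N, ‖∑ b ∈ P, β b * χ ((n : ZMod p) + b)‖ ≤ (p : ℝ) ^ (-d) * N * B.card := by
  have hp1 : (1 : ℝ) ≤ p := by
    have := (Fact.out : p.Prime).one_lt
    exact_mod_cast this.le
  have hp0 : (0 : ℝ) < p := by linarith
  have hcard : (P.card : ℝ) ≤ B.card := by exact_mod_cast Finset.card_le_card hPB
  have hN0 : (0 : ℝ) ≤ N := Nat.cast_nonneg _
  by_cases hc : (p : ℝ) ^ (1 / 2 + ε / 2) ≤ N * P.card
  · refine (h hc).trans ?_
    have h3 : (p : ℝ) ^ (-dX) ≤ (p : ℝ) ^ (-d) :=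
      Real.rpow_le_rpow_of_exponent_le hp1 (by linarith)
    gcongr
  · rw [not_le] at hc
    have htriv : ∑ n ∈ range N, ‖∑ b ∈ P, β b * χ ((n : ZMod p) + b)‖ ≤ N * P.card := by
      calc ∑ n ∈ range N, ‖∑ b ∈ P, β b * χ ((n : ZMod p) + b)‖
          ≤ ∑ _n ∈ range N, (P.card : ℝ) := by
            refine Finset.sum_le_sum fun n _ => ?_
            refine (norm_sum_le _ _).trans ?_
            refine (Finset.sum_le_card_nsmul P _ 1 fun b _ => ?_).trans ?_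
            · rw [norm_mul]
              have h5 : ‖χ ((n : ZMod p) + b)‖ ≤ 1 := Pool.Agent.helper82.Weil.norm_chi_le χ _
              have := hβ b
              calc ‖β b‖ * ‖χ ((n : ZMod p) + b)‖ ≤ 1 * 1 := by gcongr
                _ = 1 := one_mul 1
            · rw [nsmul_eq_mul, mul_one]
        _ = N * P.card := by rw [Finset.sum_const, card_range, nsmul_eq_mul]
    refine htriv.trans (hc.le.trans ?_)
    have h4 : (p : ℝ) ^ (1 / 2 + ε / 2) = (p : ℝ) ^ (-(ε / 2)) * (p : ℝ) ^ (1 / 2 + ε) := by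
      rw [← Real.rpow_add hp0]
      congr 1
      ring
    rw [h4, mul_assoc]
    have h3 : (p : ℝ) ^ (-(ε / 2)) ≤ (p : ℝ) ^ (-d) :=
      Real.rpow_le_rpow_of_exponent_le hp1 (by linarith)
    gcongr

theorem INT (h1 : CASEA_stmt) (h2 : CASEB_stmt) : INT_stmt := by
  intro ε hε hε1
  obtain ⟨dA, hdA, pA, hA⟩ := h1 (ε / 2) (by positivity) (by linarith)
  obtain ⟨dB, hdB, pB, hB⟩ := h2 (ε / 2) (by positivity) (by linarith)
  obtain ⟨d, hd⟩ : ∃ d, d = min (min dA dB) (ε / 2) := ⟨_, rfl⟩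
  have hd0 : 0 < d := by
    rw [hd]
    exact lt_min (lt_min hdA hdB) (by positivity)
  have hdA' : d ≤ dA := by
    rw [hd]
    exact (min_le_left _ _).trans (min_le_left _ _)
  have hdB' : d ≤ dB := by
    rw [hd]
    exact (min_le_left _ _).trans (min_le_right _ _)
  have hdε : d ≤ ε / 2 := by
    rw [hd]
    exact min_le_right _ _
  refine ⟨d / 2, by positivity, max (max pA pB) ⌈(2 : ℝ) ^ (2 / d)⌉₊, ?_⟩
  intro p _ hp N B hN1 hN2 hNB χ hχ β hβ
  have hpA : pA < p := lt_of_le_of_lt ((le_max_left _ _).trans (le_max_left _ _)) hp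
  have hpB : pB < p := lt_of_le_of_lt ((le_max_right _ _).trans (le_max_left _ _)) hp
  have hp2 : (2 : ℝ) ^ (2 / d) ≤ p := by
    have : ⌈(2 : ℝ) ^ (2 / d)⌉₊ < p := lt_of_le_of_lt (le_max_right _ _) hp
    exact (Nat.le_ceil _).trans (by exact_mod_cast this.le)
  have hp1 : (1 : ℝ) ≤ p := by
    have := (Fact.out : p.Prime).one_lt
    exact_mod_cast this.le
  have hp0 : (0 : ℝ) < p := by linarith
  have h2d : (2 : ℝ) ≤ (p : ℝ) ^ (d / 2) := by
    calc (2 : ℝ) = ((2 : ℝ) ^ (2 / d)) ^ (d / 2) := by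
          rw [← Real.rpow_mul (by norm_num)]
          have : 2 / d * (d / 2) = 1 := by field_simp
          rw [this, Real.rpow_one]
      _ ≤ (p : ℝ) ^ (d / 2) := by
          refine Real.rpow_le_rpow (by positivity) hp2 (by positivity)
  classical
  obtain ⟨L, hL⟩ : ∃ L : ℕ, L = ⌈(N : ℝ) * (p : ℝ) ^ (-(ε / 2 / 4))⌉₊ := ⟨_, rfl⟩
  have hL1 : (N : ℝ) * (p : ℝ) ^ (-(ε / 2 / 4)) ≤ L := by
    rw [hL]
    exact Nat.le_ceil _
  have hx1 : (1 : ℝ) ≤ (N : ℝ) * (p : ℝ) ^ (-(ε / 2 / 4)) := by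
    calc (1 : ℝ) ≤ (p : ℝ) ^ (ε + -(ε / 2 / 4)) := by
          refine Real.one_le_rpow hp1 (by linarith)
      _ = (p : ℝ) ^ ε * (p : ℝ) ^ (-(ε / 2 / 4)) := Real.rpow_add hp0 _ _
      _ ≤ (N : ℝ) * (p : ℝ) ^ (-(ε / 2 / 4)) := by gcongr
  have hL2 : (L : ℝ) ≤ 2 * N * (p : ℝ) ^ (-(ε / 2 / 4)) := by
    rw [hL]
    have := Nat.ceil_lt_add_one (show (0 : ℝ) ≤ (N : ℝ) * (p : ℝ) ^ (-(ε / 2 / 4)) by linarith)
    linarith
  have hN' : (p : ℝ) ^ (ε / 2) ≤ N :=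
    (Real.rpow_le_rpow_of_exponent_le hp1 (by linarith)).trans hN1
  -- the two parts
  obtain ⟨τ, hτ⟩ : ∃ τ : ℝ, τ = (p : ℝ) ^ (ε / 2 / 16) := ⟨_, rfl⟩
  have hτ0 : 0 ≤ τ := by
    rw [hτ]
    positivity
  obtain ⟨P, hP⟩ : ∃ P : Finset (ZMod p), P =
    B.filter fun b => τ ≤ ((cl B L (b.val / L)).card : ℝ) := ⟨_, rfl⟩
  obtain ⟨R, hR⟩ : ∃ R : Finset (ZMod p), R =
    B.filter fun b => ¬ τ ≤ ((cl B L (b.val / L)).card : ℝ) := ⟨_, rfl⟩
  have hmP : ∀ b, b ∈ P ↔ b ∈ B ∧ τ ≤ ((cl B L (b.val / L)).card : ℝ) := by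
    intro b
    rw [hP, Finset.mem_filter]
  have hmR : ∀ b, b ∈ R ↔ b ∈ B ∧ ¬ τ ≤ ((cl B L (b.val / L)).card : ℝ) := by
    intro b
    rw [hR, Finset.mem_filter]
  have hmcl : ∀ (X : Finset (ZMod p)) (j : ℕ) (b : ZMod p), b ∈ cl X L j ↔ b ∈ X ∧ b.val / L = j := by
    intro X j b
    unfold cl
    rw [Finset.mem_filter]
  have hclP : ∀ j, cl P L j = ∅ ∨ τ ≤ ((cl P L j).card : ℝ) := by
    intro j
    by_cases hj : τ ≤ ((cl B L j).card : ℝ)
    · right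
      have : cl P L j = cl B L j := by
        ext b
        rw [hmcl, hmcl, hmP]
        constructor
        · rintro ⟨⟨a1, -⟩, a2⟩
          exact ⟨a1, a2⟩
        · rintro ⟨a1, a2⟩
          refine ⟨⟨a1, ?_⟩, a2⟩
          rw [a2]
          exact hj
      rw [this]
      exact hj
    · left
      rw [Finset.eq_empty_iff_forall_notMem]
      intro b hb
      rw [hmcl, hmP] at hb
      apply hj
      rw [← hb.2]
      exact hb.1.2
  have hclR : ∀ j, ((cl R L j).card : ℝ) ≤ τ := by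
    intro j
    by_cases hj : τ ≤ ((cl B L j).card : ℝ)
    · have : cl R L j = ∅ := by
        rw [Finset.eq_empty_iff_forall_notMem]
        intro b hb
        rw [hmcl, hmR] at hb
        apply hb.1.2
        rw [hb.2]
        exact hj
      rw [this, Finset.card_empty, Nat.cast_zero]
      exact hτ0
    · rw [not_le] at hj
      have hsub : cl R L j ⊆ cl B L j := by
        intro b hb
        rw [hmcl, hmR] at hb
        rw [hmcl]
        exact ⟨hb.1.1, hb.2⟩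
      have : ((cl R L j).card : ℝ) ≤ (cl B L j).card := by
        exact_mod_cast Finset.card_le_card hsub
      linarith
  have hsplit : ∑ n ∈ range N, ‖∑ b ∈ B, β b * χ ((n : ZMod p) + b)‖ ≤
      ∑ n ∈ range N, ‖∑ b ∈ P, β b * χ ((n : ZMod p) + b)‖ +
      ∑ n ∈ range N, ‖∑ b ∈ R, β b * χ ((n : ZMod p) + b)‖ := by
    rw [← Finset.sum_add_distrib]
    refine Finset.sum_le_sum fun n _ => ?_
    have : ∑ b ∈ B, β b * χ ((n : ZMod p) + b) = ∑ b ∈ P, β b * χ ((n : ZMod p) + b) +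
        ∑ b ∈ R, β b * χ ((n : ZMod p) + b) := by
      rw [hP, hR]
      exact (Finset.sum_filter_add_sum_filter_not B _ _).symm
    rw [this]
    exact norm_add_le _ _
  have hPB : P ⊆ B := by
    intro b hb
    exact ((hmP b).1 hb).1
  have hRB : R ⊆ B := by
    intro b hb
    exact ((hmR b).1 hb).1
  have hSP := INT_part p ε d dA hdε hdA' N B P hPB hNB χ β hβ (fun hc =>
    hA p hpA N L P hN' hN2 hc hL1 hL2 (by rw [← hτ]; exact hclP) χ hχ β hβ)
  have hSR := INT_part p ε d dB hdε hdB' N B R hRB hNB χ β hβ (fun hc =>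
    hB p hpB N L R hN' hN2 hc hL1 hL2 (by rw [← hτ]; exact hclR) χ hχ β hβ)
  have hfin : 2 * ((p : ℝ) ^ (-d) * N * B.card) ≤ (p : ℝ) ^ (-(d / 2)) * N * B.card := by
    have e : (p : ℝ) ^ (-(d / 2)) = (p : ℝ) ^ (d / 2) * (p : ℝ) ^ (-d) := by
      rw [← Real.rpow_add hp0]
      congr 1
      ring
    rw [e]
    have h6 : (0 : ℝ) ≤ (p : ℝ) ^ (-d) * N * B.card := by positivity
    nlinarith
  linarith

end Pool.Agent.PY2
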